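import Mathlib

/-!
# The Hopf algebra structure of a universal enveloping algebra
-/

set_option autoImplicit false

open scoped TensorProduct

namespace Pool.Agent.R295.Hopf

variable (R : Type*) (L : Type*) [CommRing R] [LieRing L] [LieAlgebra R L]

attribute [local instance 100] LieRing.ofAssociativeRing

local instance : LieAlgebra R (UniversalEnvelopingAlgebra R L) := LieAlgebra.ofAssociativeAlgebra

/-- induction principle for the enveloping algebra -/
theorem U_induction {C : UniversalEnvelopingAlgebra R L → Prop}
    (algebraMap : ∀ r, C (algebraMap R _ r))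
    (ι : ∀ x, C (UniversalEnvelopingAlgebra.ι R x))
    (mul : ∀ a b, C a → C b → C (a * b)) (add : ∀ a b, C a → C b → C (a + b))
    (a : UniversalEnvelopingAlgebra R L) : C a := by
  let s : Subalgebra R (UniversalEnvelopingAlgebra R L) :=
    { carrier := {a | C a}
      mul_mem' := fun {a b} ha hb => mul a b ha hb
      add_mem' := fun {a b} ha hb => add a b ha hb
      algebraMap_mem' := algebraMap }
  let f : L →ₗ⁅R⁆ s :=
    { toFun := fun x => ⟨UniversalEnvelopingAlgebra.ι R x, ι x⟩
      map_add' := fun x y => Subtype.ext (map_add _ x y)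
      map_smul' := fun c x => Subtype.ext (map_smul _ c x)
      map_lie' := fun {x y} => Subtype.ext (by
        change UniversalEnvelopingAlgebra.ι R ⁅x, y⁆ = _
        rw [LieHom.map_lie]
        rfl) }
  have h : s.val.comp (UniversalEnvelopingAlgebra.lift R f) = AlgHom.id R _ := by
    ext x
    change s.val (UniversalEnvelopingAlgebra.lift R f (UniversalEnvelopingAlgebra.ι R x)) = _
    rw [UniversalEnvelopingAlgebra.lift_ι_apply]
    rfl
  have h2 : (s.val.comp (UniversalEnvelopingAlgebra.lift R f)) a = a := by rw [h]; rfl
  rw [← h2]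
  exact (UniversalEnvelopingAlgebra.lift R f a).2

theorem hom_ext' {A : Type*} [Semiring A] [Algebra R A] {f g : UniversalEnvelopingAlgebra R L →ₐ[R] A}
    (h : ∀ x, f (UniversalEnvelopingAlgebra.ι R x) = g (UniversalEnvelopingAlgebra.ι R x)) :
    f = g := by
  apply AlgHom.ext
  intro a
  induction a using U_induction with
  | algebraMap r => rw [AlgHom.commutes, AlgHom.commutes]
  | ι x => exact h x
  | mul a b ha hb => rw [map_mul, map_mul, ha, hb]
  | add a b ha hb => rw [map_add, map_add, ha, hb]

/-- the comultiplication, `x ↦ x ⊗ 1 + 1 ⊗ x` on `L` -/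
noncomputable def comulHom : UniversalEnvelopingAlgebra R L →ₐ[R]
    UniversalEnvelopingAlgebra R L ⊗[R] UniversalEnvelopingAlgebra R L :=
  UniversalEnvelopingAlgebra.lift R
    { toFun := fun x => UniversalEnvelopingAlgebra.ι R x ⊗ₜ 1 + 1 ⊗ₜ UniversalEnvelopingAlgebra.ι R x
      map_add' := fun x y => by
        simp only [map_add, TensorProduct.add_tmul, TensorProduct.tmul_add]; abel
      map_smul' := fun c x => by
        simp only [map_smul, TensorProduct.smul_tmul', TensorProduct.tmul_smul, smul_add,
          RingHom.id_apply]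
      map_lie' := fun {x y} => by
        simp only [LieHom.map_lie, LieRing.of_associative_ring_bracket, mul_add, add_mul,
          Algebra.TensorProduct.tmul_mul_tmul, one_mul, mul_one, TensorProduct.sub_tmul,
          TensorProduct.tmul_sub]
        abel }

/-- the counit, `0` on `L` -/
noncomputable def counitHom : UniversalEnvelopingAlgebra R L →ₐ[R] R :=
  UniversalEnvelopingAlgebra.lift R 0

/-- the antipode, `x ↦ -x` on `L`, as a homomorphism to the opposite algebra -/
noncomputable def antipodeHom : UniversalEnvelopingAlgebra R L →ₐ[R]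
    (UniversalEnvelopingAlgebra R L)ᵐᵒᵖ :=
  UniversalEnvelopingAlgebra.lift R
    { toFun := fun x => MulOpposite.op (-UniversalEnvelopingAlgebra.ι R x)
      map_add' := fun x y => by
        rw [map_add, neg_add, MulOpposite.op_add]
      map_smul' := fun c x => by
        rw [map_smul, ← smul_neg, MulOpposite.op_smul]; rfl
      map_lie' := fun {x y} => by
        simp only [LieHom.map_lie, LieRing.of_associative_ring_bracket]
        rw [← MulOpposite.op_mul, ← MulOpposite.op_mul, ← MulOpposite.op_sub]
        congr 1
        noncomm_ring }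

@[simp] lemma comulHom_ι (x : L) : comulHom R L (UniversalEnvelopingAlgebra.ι R x) =
    UniversalEnvelopingAlgebra.ι R x ⊗ₜ 1 + 1 ⊗ₜ UniversalEnvelopingAlgebra.ι R x :=
  UniversalEnvelopingAlgebra.lift_ι_apply R _ x

@[simp] lemma counitHom_ι (x : L) : counitHom R L (UniversalEnvelopingAlgebra.ι R x) = 0 :=
  UniversalEnvelopingAlgebra.lift_ι_apply R _ x

@[simp] lemma antipodeHom_ι (x : L) : antipodeHom R L (UniversalEnvelopingAlgebra.ι R x) =
    MulOpposite.op (-UniversalEnvelopingAlgebra.ι R x) :=
  UniversalEnvelopingAlgebra.lift_ι_apply R _ x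

noncomputable instance instBialgebra : Bialgebra R (UniversalEnvelopingAlgebra R L) :=
  Bialgebra.ofAlgHom (comulHom R L) (counitHom R L)
    (by
      apply hom_ext'
      intro x
      change (Algebra.TensorProduct.assoc R R R _ _ _)
        (Algebra.TensorProduct.map (comulHom R L) (.id R _)
          (comulHom R L (UniversalEnvelopingAlgebra.ι R x))) =
        Algebra.TensorProduct.map (.id R _) (comulHom R L)
          (comulHom R L (UniversalEnvelopingAlgebra.ι R x))
      rw [comulHom_ι, map_add, map_add, map_add, Algebra.TensorProduct.map_tmul,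
        Algebra.TensorProduct.map_tmul, Algebra.TensorProduct.map_tmul,
        Algebra.TensorProduct.map_tmul, comulHom_ι, map_one, AlgHom.id_apply, map_one,
        Algebra.TensorProduct.one_def, TensorProduct.add_tmul, TensorProduct.tmul_add, map_add,
        Algebra.TensorProduct.assoc_tmul, Algebra.TensorProduct.assoc_tmul,
        Algebra.TensorProduct.assoc_tmul]
      abel)
    (by
      apply hom_ext'
      intro x
      change Algebra.TensorProduct.map (counitHom R L) (.id R _)
        (comulHom R L (UniversalEnvelopingAlgebra.ι R x)) =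
        (Algebra.TensorProduct.lid R _).symm (UniversalEnvelopingAlgebra.ι R x)
      rw [comulHom_ι, map_add, Algebra.TensorProduct.map_tmul, Algebra.TensorProduct.map_tmul,
        counitHom_ι, map_one, TensorProduct.zero_tmul, zero_add, AlgHom.id_apply, map_one]
      rfl)
    (by
      apply hom_ext'
      intro x
      change Algebra.TensorProduct.map (.id R _) (counitHom R L)
        (comulHom R L (UniversalEnvelopingAlgebra.ι R x)) =
        (Algebra.TensorProduct.rid R R _).symm (UniversalEnvelopingAlgebra.ι R x)
      rw [comulHom_ι, map_add, Algebra.TensorProduct.map_tmul, Algebra.TensorProduct.map_tmul,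
        counitHom_ι, map_one, TensorProduct.tmul_zero, add_zero, AlgHom.id_apply]
      rfl)

lemma comul_eq (a : UniversalEnvelopingAlgebra R L) : Coalgebra.comul (R := R) a = comulHom R L a :=
  rfl

lemma counit_eq (a : UniversalEnvelopingAlgebra R L) :
    Coalgebra.counit (R := R) a = counitHom R L a := rfl

/-- the antipode as a linear map -/
noncomputable def antipodeL : UniversalEnvelopingAlgebra R L →ₗ[R] UniversalEnvelopingAlgebra R L :=
  (MulOpposite.opLinearEquiv R).symm.toLinearMap ∘ₗ (antipodeHom R L).toLinearMap

lemma antipodeL_apply (a : UniversalEnvelopingAlgebra R L) :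
    antipodeL R L a = MulOpposite.unop (antipodeHom R L a) := rfl

lemma antipodeL_mul (a b : UniversalEnvelopingAlgebra R L) :
    antipodeL R L (a * b) = antipodeL R L b * antipodeL R L a := by
  rw [antipodeL_apply, map_mul, MulOpposite.unop_mul]; rfl

lemma antipodeL_one : antipodeL R L 1 = 1 := by
  rw [antipodeL_apply, map_one]; rfl

lemma antipodeL_algebraMap (r : R) : antipodeL R L (algebraMap R _ r) = algebraMap R _ r := by
  rw [antipodeL_apply, AlgHom.commutes]; rfl

lemma antipodeL_ι (x : L) : antipodeL R L (UniversalEnvelopingAlgebra.ι R x) =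
    -UniversalEnvelopingAlgebra.ι R x := by
  rw [antipodeL_apply, antipodeHom_ι]; rfl

/-- `a ⊗ b ↦ S(a) b` -/
noncomputable def mS : UniversalEnvelopingAlgebra R L ⊗[R] UniversalEnvelopingAlgebra R L →ₗ[R]
    UniversalEnvelopingAlgebra R L :=
  LinearMap.mul' R _ ∘ₗ (antipodeL R L).rTensor _

/-- `a ⊗ b ↦ a S(b)` -/
noncomputable def mS' : UniversalEnvelopingAlgebra R L ⊗[R] UniversalEnvelopingAlgebra R L →ₗ[R]
    UniversalEnvelopingAlgebra R L :=
  LinearMap.mul' R _ ∘ₗ (antipodeL R L).lTensor _

lemma mS_tmul (a b : UniversalEnvelopingAlgebra R L) : mS R L (a ⊗ₜ b) = antipodeL R L a * b := rfl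
lemma mS'_tmul (a b : UniversalEnvelopingAlgebra R L) :
    mS' R L (a ⊗ₜ b) = a * antipodeL R L b := rfl

lemma mS_mul (u v : UniversalEnvelopingAlgebra R L ⊗[R] UniversalEnvelopingAlgebra R L) (r : R)
    (hu : mS R L u = algebraMap R _ r) : mS R L (u * v) = algebraMap R _ r * mS R L v := by
  induction v using TensorProduct.induction_on with
  | zero => simp
  | add v w hv hw => rw [mul_add, map_add, hv, hw, map_add, mul_add]
  | tmul c d =>
    have h : ∀ u, mS R L (u * c ⊗ₜ d) = antipodeL R L c * mS R L u * d := by
      intro u
      induction u using TensorProduct.induction_on with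
      | zero => simp
      | add u w hu hw => rw [add_mul, map_add, hu, hw, map_add, mul_add, add_mul]
      | tmul a b =>
        rw [Algebra.TensorProduct.tmul_mul_tmul, mS_tmul, mS_tmul, antipodeL_mul]
        simp only [mul_assoc]
    rw [h, hu, mS_tmul, ← mul_assoc, ← Algebra.commutes]

lemma mS'_mul (u v : UniversalEnvelopingAlgebra R L ⊗[R] UniversalEnvelopingAlgebra R L) (r : R)
    (hv : mS' R L v = algebraMap R _ r) : mS' R L (u * v) = algebraMap R _ r * mS' R L u := by
  induction u using TensorProduct.induction_on with
  | zero => simp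
  | add v w hv hw => rw [add_mul, map_add, hv, hw, map_add, mul_add]
  | tmul a b =>
    have h : ∀ v, mS' R L (a ⊗ₜ b * v) = a * mS' R L v * antipodeL R L b := by
      intro v
      induction v using TensorProduct.induction_on with
      | zero => simp
      | add u w hu hw => rw [mul_add, map_add, hu, hw, map_add, mul_add, add_mul]
      | tmul c d =>
        rw [Algebra.TensorProduct.tmul_mul_tmul, mS'_tmul, mS'_tmul, antipodeL_mul]
        simp only [mul_assoc]
    rw [h, hv, mS'_tmul, ← mul_assoc, ← Algebra.commutes]

lemma mS_comul (a : UniversalEnvelopingAlgebra R L) :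
    mS R L (comulHom R L a) = algebraMap R _ (counitHom R L a) := by
  induction a using U_induction with
  | algebraMap r =>
    rw [AlgHom.commutes, AlgHom.commutes, Algebra.TensorProduct.algebraMap_apply, mS_tmul,
      antipodeL_algebraMap, mul_one]
    rfl
  | ι x =>
    rw [comulHom_ι, map_add, mS_tmul, mS_tmul, antipodeL_ι, antipodeL_one, counitHom_ι, map_zero,
      mul_one, one_mul, neg_add_cancel]
  | mul a b ha hb =>
    rw [map_mul, mS_mul R L _ _ _ ha, hb, map_mul, map_mul]
  | add a b ha hb => simp only [map_add, ha, hb]

lemma mS'_comul (a : UniversalEnvelopingAlgebra R L) :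
    mS' R L (comulHom R L a) = algebraMap R _ (counitHom R L a) := by
  induction a using U_induction with
  | algebraMap r =>
    rw [AlgHom.commutes, AlgHom.commutes, Algebra.TensorProduct.algebraMap_apply, mS'_tmul,
      antipodeL_one, mul_one]
    rfl
  | ι x =>
    rw [comulHom_ι, map_add, mS'_tmul, mS'_tmul, antipodeL_ι, antipodeL_one, counitHom_ι, map_zero,
      mul_one, one_mul, add_neg_cancel]
  | mul a b ha hb =>
    rw [map_mul, mS'_mul R L _ _ _ hb, ha, map_mul, map_mul, ← map_mul, mul_comm, map_mul]
  | add a b ha hb => simp only [map_add, ha, hb]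

noncomputable instance instHopfAlgebra : HopfAlgebra R (UniversalEnvelopingAlgebra R L) where
  antipode := antipodeL R L
  mul_antipode_rTensor_comul := LinearMap.ext fun a => mS_comul R L a
  mul_antipode_lTensor_comul := LinearMap.ext fun a => mS'_comul R L a

end Pool.Agent.R295.Hopf
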