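import Pool.Agent.R295.Hopf.UHopf

/-!
# The enveloping algebra of the Witt algebra has no non-trivial submultiplicative seminorms
-/

set_option autoImplicit false

open scoped TensorProduct

namespace Pool.Agent.R295.Hopf

attribute [local instance 100] LieRing.ofAssociativeRing

/-- the operator `(E_n f)(k) = (k - n) f(k - n)` on the functions on `ℤ` -/
noncomputable def E (n : ℤ) : Module.End ℂ (ℤ → ℂ) where
  toFun f := fun k => ((k - n : ℤ) : ℂ) * f (k - n)
  map_add' f g := by ext k; simp [mul_add]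
  map_smul' c f := by ext k; simp; ring

lemma E_apply (n : ℤ) (f : ℤ → ℂ) (k : ℤ) : E n f k = ((k - n : ℤ) : ℂ) * f (k - n) := rfl

lemma lie_E (m n : ℤ) : ⁅E m, E n⁆ = ((n - m : ℤ) : ℂ) • E (m + n) := by
  apply LinearMap.ext
  intro f
  ext k
  rw [LieRing.of_associative_ring_bracket]
  change (E m (E n f) - E n (E m f)) k = _
  rw [Pi.sub_apply, E_apply, E_apply, E_apply, E_apply]
  change _ = ((n - m : ℤ) : ℂ) * (E (m + n) f k)
  rw [E_apply]
  have h1 : k - m - n = k - (m + n) := by ring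
  have h2 : k - n - m = k - (m + n) := by ring
  rw [h1, h2]
  push_cast
  ring

/-- the generators `E_1, E_{-1}, E_2, E_{-2}` of the Witt algebra -/
def gens : Set (Module.End ℂ (ℤ → ℂ)) := {E 1, E (-1), E 2, E (-2)}

/-- the Witt algebra: the Lie algebra of operators generated by `E_1, E_{-1}, E_2, E_{-2}`; it is
spanned by the operators `E_n`, `n ∈ ℤ` -/
noncomputable abbrev W : LieSubalgebra ℂ (Module.End ℂ (ℤ → ℂ)) := LieSubalgebra.lieSpan ℂ _ gens

lemma E_mem_aux {S : Submodule ℂ (Module.End ℂ (ℤ → ℂ))}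
    (hS : ∀ x ∈ S, ∀ y ∈ S, ⁅x, y⁆ ∈ S) (h : gens ⊆ S) (n : ℤ) : E n ∈ S := by
  have key : ∀ m n : ℤ, m ≠ n → E m ∈ S → E n ∈ S → E (m + n) ∈ S := by
    intro m n hmn hm hn
    have h1 := hS _ hm _ hn
    rw [lie_E] at h1
    have h2 : ((n - m : ℤ) : ℂ) ≠ 0 := by
      rw [Int.cast_ne_zero]; omega
    have h3 := S.smul_mem (((n - m : ℤ) : ℂ)⁻¹) h1
    rwa [smul_smul, inv_mul_cancel₀ h2, one_smul] at h3
  have h1 : E 1 ∈ S := h (by simp [gens])
  have h1' : E (-1) ∈ S := h (by simp [gens])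
  have h2 : E 2 ∈ S := h (by simp [gens])
  have h2' : E (-2) ∈ S := h (by simp [gens])
  have h0 : E 0 ∈ S := by
    have := key 1 (-1) (by norm_num) h1 h1'
    simpa using this
  have hpos : ∀ k : ℕ, E ((k : ℤ) + 2) ∈ S := by
    intro k
    induction k with
    | zero => simpa using h2
    | succ k ih =>
      have := key ((k : ℤ) + 2) 1 (by omega) ih h1
      have e : ((k + 1 : ℕ) : ℤ) + 2 = (k : ℤ) + 2 + 1 := by push_cast; ring
      rw [e]; exact this
  have hneg : ∀ k : ℕ, E (-((k : ℤ) + 2)) ∈ S := by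
    intro k
    induction k with
    | zero => simpa using h2'
    | succ k ih =>
      have := key (-((k : ℤ) + 2)) (-1) (by omega) ih h1'
      have e : -(((k + 1 : ℕ) : ℤ) + 2) = -((k : ℤ) + 2) + -1 := by push_cast; ring
      rw [e]; exact this
  rcases lt_trichotomy n 0 with hn | hn | hn
  · rcases eq_or_ne n (-1) with rfl | hn'
    · exact h1'
    · have := hneg (-n - 2).toNat
      have e : -(((-n - 2).toNat : ℤ) + 2) = n := by omega
      rwa [e] at this
  · rw [hn]; exact h0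
  · rcases eq_or_ne n 1 with rfl | hn'
    · exact h1
    · have := hpos (n - 2).toNat
      have e : ((n - 2).toNat : ℤ) + 2 = n := by omega
      rwa [e] at this

lemma E_mem_W (n : ℤ) : E n ∈ W :=
  E_mem_aux (S := W.toSubmodule) (fun _ hx _ hy => W.lie_mem hx hy) LieSubalgebra.subset_lieSpan n

/-- the elements `e_n` of the Witt algebra -/
noncomputable def w (n : ℤ) : W := ⟨E n, E_mem_W n⟩

lemma lie_w (m n : ℤ) : ⁅w m, w n⁆ = ((n - m : ℤ) : ℂ) • w (m + n) :=
  Subtype.ext (lie_E m n)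

/-- the enveloping algebra of the Witt algebra -/
abbrev UW : Type := UniversalEnvelopingAlgebra ℂ W

/-- the canonical map -/
noncomputable abbrev j : W →ₗ⁅ℂ⁆ UW := UniversalEnvelopingAlgebra.ι ℂ

lemma j_lie (x y : W) : j ⁅x, y⁆ = j x * j y - j y * j x := by
  rw [LieHom.map_lie, LieRing.of_associative_ring_bracket]

/-- a submodule of `W` closed under brackets and containing the generators is `W` -/
lemma W_induction {C : W → Prop} (hadd : ∀ x y, C x → C y → C (x + y)) (h0 : C 0)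
    (hsmul : ∀ (c : ℂ) x, C x → C (c • x)) (hlie : ∀ x y, C x → C y → C ⁅x, y⁆)
    (hw : ∀ n, C (w n)) (x : W) : C x := by
  obtain ⟨x, hx⟩ := x
  let S : LieSubalgebra ℂ (Module.End ℂ (ℤ → ℂ)) :=
    { carrier := {y | ∃ hy : y ∈ W, C ⟨y, hy⟩}
      add_mem' := fun {a b} ⟨ha, ha'⟩ ⟨hb, hb'⟩ => ⟨add_mem ha hb, hadd _ _ ha' hb'⟩
      zero_mem' := ⟨zero_mem _, h0⟩
      smul_mem' := fun c a ⟨ha, ha'⟩ => ⟨W.smul_mem c ha, hsmul c _ ha'⟩
      lie_mem' := fun {a b} ⟨ha, ha'⟩ ⟨hb, hb'⟩ => ⟨W.lie_mem ha hb, hlie _ _ ha' hb'⟩ }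
  have h1 : W ≤ S := by
    apply LieSubalgebra.lieSpan_le.2
    intro y hy
    simp only [gens, Set.mem_insert_iff, Set.mem_singleton_iff] at hy
    rcases hy with rfl | rfl | rfl | rfl
    · exact ⟨E_mem_W 1, hw 1⟩
    · exact ⟨E_mem_W (-1), hw (-1)⟩
    · exact ⟨E_mem_W 2, hw 2⟩
    · exact ⟨E_mem_W (-2), hw (-2)⟩
  exact (h1 hx).2

/-- the enveloping algebra of the Witt algebra is finitely generated -/
theorem finiteType_UW : Algebra.FiniteType ℂ UW := by
  refine ⟨Subalgebra.fg_def.2 ⟨{j (w 1), j (w (-1)), j (w 2), j (w (-2))}, Set.toFinite _, ?_⟩⟩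
  set A : Subalgebra ℂ UW := Algebra.adjoin ℂ
    ({j (w 1), j (w (-1)), j (w 2), j (w (-2))} : Set UW) with hA
  rw [eq_top_iff]
  have hw : ∀ x : W, j x ∈ A := by
    intro x
    obtain ⟨x, hx⟩ := x
    let S : LieSubalgebra ℂ (Module.End ℂ (ℤ → ℂ)) :=
      { carrier := {y | ∃ hy : y ∈ W, j ⟨y, hy⟩ ∈ A}
        add_mem' := fun {a b} ⟨ha, ha'⟩ ⟨hb, hb'⟩ => ⟨add_mem ha hb, by
          have : j (⟨a + b, add_mem ha hb⟩ : W) = j ⟨a, ha⟩ + j ⟨b, hb⟩ := by
            rw [← map_add]; rfl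
          rw [this]; exact add_mem ha' hb'⟩
        zero_mem' := ⟨zero_mem _, by
          have : j (⟨0, zero_mem _⟩ : W) = 0 := by
            rw [← map_zero j]; rfl
          rw [this]; exact zero_mem _⟩
        smul_mem' := fun c a ⟨ha, ha'⟩ => ⟨W.smul_mem c ha, by
          have : j (⟨c • a, W.smul_mem c ha⟩ : W) = c • j ⟨a, ha⟩ := by
            rw [← map_smul]; rfl
          rw [this]; exact A.smul_mem ha' c⟩
        lie_mem' := fun {a b} ⟨ha, ha'⟩ ⟨hb, hb'⟩ => ⟨W.lie_mem ha hb, by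
          have : j (⟨⁅a, b⁆, W.lie_mem ha hb⟩ : W) = j ⟨a, ha⟩ * j ⟨b, hb⟩ - j ⟨b, hb⟩ * j ⟨a, ha⟩ := by
            rw [← j_lie]; rfl
          rw [this]; exact sub_mem (mul_mem ha' hb') (mul_mem hb' ha')⟩ }
    have h1 : W ≤ S := by
      apply LieSubalgebra.lieSpan_le.2
      intro y hy
      simp only [gens, Set.mem_insert_iff, Set.mem_singleton_iff] at hy
      rcases hy with rfl | rfl | rfl | rfl
      · exact ⟨E_mem_W 1, Algebra.subset_adjoin (Or.inl rfl)⟩
      · exact ⟨E_mem_W (-1), Algebra.subset_adjoin (Or.inr (Or.inl rfl))⟩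
      · exact ⟨E_mem_W 2, Algebra.subset_adjoin (Or.inr (Or.inr (Or.inl rfl)))⟩
      · exact ⟨E_mem_W (-2), Algebra.subset_adjoin (Or.inr (Or.inr (Or.inr rfl)))⟩
    exact (h1 hx).2
  intro a _
  induction a using U_induction with
  | algebraMap r => exact A.algebraMap_mem r
  | ι x => exact hw x
  | mul a b ha hb => exact mul_mem (ha trivial) (hb trivial)
  | add a b ha hb => exact add_mem (ha trivial) (hb trivial)

section seminorm

variable (p : Seminorm ℂ UW) (hp : ∀ a b, p (a * b) ≤ p a * p b)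

include hp

lemma p_lie_le (x y : W) : p (j ⁅x, y⁆) ≤ 2 * (p (j x) * p (j y)) := by
  rw [j_lie]
  calc p (j x * j y - j y * j x) ≤ p (j x * j y) + p (j y * j x) := map_sub_le_add p _ _
    _ ≤ p (j x) * p (j y) + p (j y) * p (j x) := add_le_add (hp _ _) (hp _ _)
    _ = 2 * (p (j x) * p (j y)) := by ring

lemma p_w_large {n : ℤ} (hn : 2 * p (j (w 0)) < |(n : ℝ)|) : p (j (w n)) = 0 := by
  have h1 := p_lie_le p hp (w 0) (w n)
  rw [lie_w, map_smul, map_smul_eq_mul, zero_add, sub_zero, Complex.norm_intCast] at h1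
  by_contra h
  have h2 : 0 < p (j (w n)) := lt_of_le_of_ne (apply_nonneg p _) (Ne.symm h)
  have h3 : |(n : ℝ)| * p (j (w n)) ≤ (2 * p (j (w 0))) * p (j (w n)) := by
    calc |(n : ℝ)| * p (j (w n)) ≤ 2 * (p (j (w 0)) * p (j (w n))) := h1
      _ = _ := by ring
  exact absurd (le_of_mul_le_mul_right h3 h2) (not_le.2 hn)

lemma p_w (n : ℤ) : p (j (w n)) = 0 := by
  obtain ⟨N, hN⟩ := exists_nat_gt (2 * p (j (w 0)) + |(n : ℝ)|)
  have hN' : 2 * p (j (w 0)) < |((N : ℤ) : ℝ)| := by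
    rw [Int.cast_natCast, abs_of_nonneg (Nat.cast_nonneg _)]
    linarith [abs_nonneg (n : ℝ)]
  have h0 := p_w_large p hp hN'
  have h1 := p_lie_le p hp (w (N : ℤ)) (w (n - N))
  have h2 : (N : ℤ) + (n - N) = n := by ring
  rw [lie_w, map_smul, map_smul_eq_mul, h0, zero_mul, mul_zero, h2, Complex.norm_intCast] at h1
  have h3 : (0 : ℝ) < |((n - N - N : ℤ) : ℝ)| := by
    rw [abs_pos]
    have hnN : |(n : ℝ)| < N := by
      have := apply_nonneg p (j (w 0))
      linarith
    have h4 : (n : ℝ) < N := lt_of_le_of_lt (le_abs_self _) hnN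
    push_cast
    have h5 : (0 : ℝ) ≤ N := Nat.cast_nonneg _
    intro h6
    linarith
  have h4 : 0 ≤ p (j (w n)) := apply_nonneg p _
  nlinarith [mul_nonneg h3.le h4]

/-- submultiplicative seminorms vanish on the Witt algebra -/
lemma p_j (x : W) : p (j x) = 0 := by
  induction x using W_induction with
  | hadd x y hx hy =>
    apply le_antisymm _ (apply_nonneg p _)
    rw [map_add]
    calc p (j x + j y) ≤ p (j x) + p (j y) := map_add_le_add p _ _
      _ = 0 := by rw [hx, hy, add_zero]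
  | h0 => rw [map_zero, map_zero]
  | hsmul c x hx => rw [map_smul, map_smul_eq_mul, hx, mul_zero]
  | hlie x y hx hy =>
    apply le_antisymm _ (apply_nonneg p _)
    calc p (j ⁅x, y⁆) ≤ 2 * (p (j x) * p (j y)) := p_lie_le p hp x y
      _ = 0 := by rw [hx]; ring
  | hw n => exact p_w p hp n

end seminorm

lemma j_injective : Function.Injective j := by
  let ρ : W →ₗ⁅ℂ⁆ Module.End ℂ (ℤ → ℂ) := W.incl
  intro x y hxy
  have h1 : UniversalEnvelopingAlgebra.lift ℂ ρ (j x) = UniversalEnvelopingAlgebra.lift ℂ ρ (j y) := by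
    rw [hxy]
  rw [UniversalEnvelopingAlgebra.lift_ι_apply, UniversalEnvelopingAlgebra.lift_ι_apply] at h1
  exact Subtype.ext h1

lemma j_w_ne_zero : j (w 0) ≠ 0 := by
  intro h
  have h1 : w 0 = 0 := j_injective (by rw [h, map_zero])
  have h2 : E 0 = 0 := congrArg Subtype.val h1
  have h3 : E 0 (fun _ => 1) 1 = 0 := by rw [h2]; rfl
  rw [E_apply] at h3
  norm_num at h3

end Pool.Agent.R295.Hopf
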